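import Mathlib

set_option autoImplicit false

namespace Pool.Agent.Helper41.BCP

/-- The asymptotic step of the power version. -/
theorem asymP (kap : ℕ) (c : ℝ) (hc : c * kap < 1) (gr : ℕ → ℕ) (C : ℝ)
    (hC : 0 < C) (hgr : ∀ r : ℕ, (gr r : ℝ) ≤ C * Real.exp ((C * r) ^ c)) :
    ∃ k0 : ℕ, ∀ k : ℕ, 2 ^ k ≤ gr ((kap * k) ^ kap) → k ≤ k0 := by
  obtain ⟨A, hA⟩ : ∃ A : ℝ, A = (C * (kap : ℝ) ^ kap) ^ c := ⟨_, rfl⟩
  have t1 : Filter.Tendsto (fun k : ℕ => A * (k : ℝ) ^ (-(1 - c * kap))) Filter.atTop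
      (nhds (A * 0)) :=
    ((tendsto_rpow_neg_atTop (by linarith)).comp tendsto_natCast_atTop_atTop).const_mul A
  have t2 : Filter.Tendsto (fun k : ℕ => Real.log C / (k : ℝ)) Filter.atTop (nhds 0) :=
    tendsto_const_div_atTop_nhds_zero_nat _
  have t3 := t2.add t1
  have e1 := t3.eventually (gt_mem_nhds (show 0 + A * 0 < 1 / 2 by norm_num))
  obtain ⟨N, hN⟩ := Filter.eventually_atTop.1 (e1.and (Filter.eventually_ge_atTop 1))
  refine ⟨N, fun k hk => ?_⟩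
  by_contra hlt
  push Not at hlt
  obtain ⟨h1, h2⟩ := hN k hlt.le
  have hk0 : (0 : ℝ) < k := by exact_mod_cast h2
  have h3 : (2 : ℝ) ^ k ≤ C * Real.exp ((C * (((kap * k) ^ kap : ℕ) : ℝ)) ^ c) :=
    le_trans (by exact_mod_cast hk) (hgr _)
  have h4 : (C * (((kap * k) ^ kap : ℕ) : ℝ)) ^ c = A * (k : ℝ) ^ (c * kap) := by
    push_cast
    rw [mul_pow, ← mul_assoc, Real.mul_rpow (by positivity) (by positivity), hA,
      ← Real.rpow_natCast (k : ℝ) kap, ← Real.rpow_mul hk0.le, mul_comm (kap : ℝ) c]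
  rw [h4] at h3
  have h5 := Real.log_le_log (by positivity) h3
  rw [Real.log_pow, Real.log_mul hC.ne' (Real.exp_pos _).ne', Real.log_exp] at h5
  have h6 : (k : ℝ) ^ (c * kap) = (k : ℝ) ^ (-(1 - c * kap)) * k := by
    have : (k : ℝ) ^ (-(1 - c * kap)) * k = (k : ℝ) ^ (-(1 - c * kap)) * (k : ℝ) ^ (1 : ℝ) := by
      rw [Real.rpow_one]
    rw [this, ← Real.rpow_add hk0]
    congr 1
    ring
  rw [h6] at h5
  have h7 := Real.log_two_gt_d9
  have h8 : Real.log C = Real.log C / k * k := by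
    field_simp
  have h9 : (k : ℝ) * Real.log 2 ≤ (Real.log C / k + A * (k : ℝ) ^ (-(1 - c * kap))) * k := by
    calc (k : ℝ) * Real.log 2 ≤ Real.log C + A * ((k : ℝ) ^ (-(1 - c * kap)) * k) := h5
      _ = Real.log C / k * k + A * ((k : ℝ) ^ (-(1 - c * kap)) * k) := by rw [← h8]
      _ = _ := by ring
  have h10 := mul_lt_mul_of_pos_right h1 hk0
  have h11 : (k : ℝ) * Real.log 2 < 1 / 2 * k := lt_of_le_of_lt h9 h10
  nlinarith

end Pool.Agent.Helper41.BCP
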