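import Pool.Agent.Helper94.RS4.FinalVN
import Pool.Agent.Helper94.BC.Defs

set_option autoImplicit false

open scoped Pointwise commutatorElement

namespace Pool.Agent.Helper41.BCP

open Pool.Agent.Helper94.BC

/-- The constant in front of the exponential can be absorbed. -/
theorem gb_of_le {G : Type} [Group G] (S : Set G) (c : ℝ) (hc0 : 0 < c) (C : ℝ) (hC : 0 < C)
    (hgr : ∀ r : ℕ, (Nat.card (Bl S r) : ℝ) ≤ C * Real.exp ((C * r) ^ c)) :
    Pool.Agent.Helper98.RS.GB S (2 * c) := by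
  obtain ⟨A, hA⟩ : ∃ A : ℝ, A = C ^ c := ⟨_, rfl⟩
  have t0 : Filter.Tendsto (fun n : ℕ => (n : ℝ) ^ c) Filter.atTop Filter.atTop :=
    (tendsto_rpow_atTop hc0).comp tendsto_natCast_atTop_atTop
  have e1 := t0.eventually (Filter.eventually_ge_atTop (|Real.log C| + A + 1))
  have e2 := Filter.eventually_ge_atTop (α := ℕ) 1
  obtain ⟨n0, hn0⟩ := Filter.eventually_atTop.1 (e1.and e2)
  have hA0 : 0 < A := by
    rw [hA]
    positivity
  refine ⟨n0, fun n hn => ?_⟩
  obtain ⟨h1, h2⟩ := hn0 n hn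
  have hn1 : (0 : ℝ) < n := by exact_mod_cast h2
  set y : ℝ := (n : ℝ) ^ c with hy
  have h4 : (C * (n : ℝ)) ^ c = A * y := by
    rw [Real.mul_rpow hC.le hn1.le, hA]
  have h5 : (n : ℝ) ^ (2 * c) = y * y := by
    rw [hy, ← Real.rpow_add hn1]
    congr 1
    ring
  refine (hgr n).trans ?_
  rw [h4, h5]
  calc C * Real.exp (A * y) = Real.exp (Real.log C + A * y) := by
        rw [Real.exp_add, Real.exp_log hC]
    _ ≤ Real.exp (y * y) := by
        apply Real.exp_le_exp.2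
        have h6 := le_abs_self (Real.log C)
        have h7 := abs_nonneg (Real.log C)
        have h8 : 0 ≤ (y - 1) * (y - A) := mul_nonneg (by linarith) (by linarith)
        nlinarith

/-- A group of growth at most `C exp ((C r) ^ c)` with `c` at most `1 / 32` and with a residually
soluble subgroup of finite index is virtually nilpotent. -/
theorem growth_finalP (G : Type) [Group G] (S : Set G) (hSf : S.Finite)
    (hS : Subgroup.closure S = ⊤) (c : ℝ) (hc0 : 0 < c) (hc1 : c ≤ 1 / 32) (C : ℝ) (hC : 0 < C)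
    (hgr : ∀ r : ℕ, (Nat.card (Bl S r) : ℝ) ≤ C * Real.exp ((C * r) ^ c))
    (F : Subgroup G) (hF : F.FiniteIndex)
    (hres : ∀ g : F, g ≠ 1 →
      ∃ (N : Subgroup F) (_ : N.Normal), g ∉ N ∧ Group.IsSolvable (F ⧸ N)) :
    ∃ H : Subgroup G, H.FiniteIndex ∧ Group.IsNilpotent H := by
  have hGB : Pool.Agent.Helper98.RS.GB S (2 * c) := gb_of_le S c hc0 C hC hgr
  obtain ⟨T, hTf, hT, hGT⟩ := Pool.Agent.Helper75.LS.gb_subgroup S hSf hS (2 * c) (1 / 8)
    (by linarith) (by linarith) hGB F hF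
  refine Pool.Agent.Helper75.LS.vn_of_subgroup F hF ?_
  refine Pool.Agent.Helper94.RS4.final_vn F T hTf hT hres (1 / 8) (by norm_num) ?_
  obtain ⟨n0, hn0⟩ := hGT
  refine ⟨1 + ∑ i ∈ Finset.range n0, (Nat.card (Bl T i) : ℝ), ?_, fun n => ?_⟩
  · have : 0 ≤ ∑ i ∈ Finset.range n0, (Nat.card (Bl T i) : ℝ) :=
      Finset.sum_nonneg fun i _ => Nat.cast_nonneg _
    linarith
  set C : ℝ := 1 + ∑ i ∈ Finset.range n0, (Nat.card (Bl T i) : ℝ) with hC
  have hC1 : 1 ≤ C := by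
    have : 0 ≤ ∑ i ∈ Finset.range n0, (Nat.card (Bl T i) : ℝ) :=
      Finset.sum_nonneg fun i _ => Nat.cast_nonneg _
    linarith
  have hn : (0 : ℝ) ≤ n := Nat.cast_nonneg n
  rcases lt_or_ge n n0 with h | h
  · have h2 : (Nat.card (Bl T n) : ℝ) ≤ ∑ i ∈ Finset.range n0, (Nat.card (Bl T i) : ℝ) :=
      Finset.single_le_sum (f := fun i => (Nat.card (Bl T i) : ℝ)) (fun i _ => Nat.cast_nonneg _)
        (Finset.mem_range.2 h)
    have h3 : 1 ≤ Real.exp ((C * n) ^ (1 / 8 : ℝ)) := by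
      rw [Real.one_le_exp_iff]
      positivity
    calc (Nat.card ↥((({1} : Set F) ∪ T ∪ T⁻¹) ^ n) : ℝ) = Nat.card (Bl T n) := rfl
      _ ≤ C := by linarith
      _ ≤ C * Real.exp ((C * n) ^ (1 / 8 : ℝ)) := le_mul_of_one_le_right (by linarith) h3
  · refine (hn0 n h).trans ?_
    have h2 : Real.exp ((n : ℝ) ^ (1 / 8 : ℝ)) ≤ Real.exp ((C * n) ^ (1 / 8 : ℝ)) := by
      apply Real.exp_le_exp.2
      exact Real.rpow_le_rpow hn (le_mul_of_one_le_left hn hC1) (by norm_num)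
    exact h2.trans (le_mul_of_one_le_left (Real.exp_pos _).le hC1)

end Pool.Agent.Helper41.BCP
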