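import Pool.Agent.Helper41.BCP.AsymP
import Pool.Agent.Helper41.BCP.GrP
import Pool.Agent.Helper94.BC.Core

set_option autoImplicit false

open scoped Pointwise commutatorElement

namespace Pool.Agent.Helper41.BCP

open Pool.Agent.Helper94.BC

/-- The gap theorem from the estimate for the chief factors. -/
theorem finalP_of_chief (B : ℕ) (hch : ∃ c : ℕ, 1 ≤ c ∧ ∀ (G : Type) [Group G] [Finite G]
    (S : Set G), Cls B G → Subgroup.closure S = ⊤ →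
      ∀ N E : Subgroup G, N.Normal → E.Normal → N < E →
        (∀ L : Subgroup G, L.Normal → N ≤ L → L ≤ E → L = N ∨ L = E) → ¬ ⁅E, E⁆ ≤ N →
        ∃ k : ℕ, 1 ≤ k ∧ 2 ^ k ≤ Nat.card (Bl S ((c * k) ^ c)) ∧ N.relIndex E ≤ B ^ k) :
    ∃ c : ℝ, 0 < c ∧ ∀ (G : Type) [Group G] (S : Set G), S.Finite →
    Subgroup.closure S = ⊤ →
    (∃ C : ℝ, 0 < C ∧ ∀ r : ℕ, (Nat.card (Bl S r) : ℝ) ≤ C * Real.exp ((C * r) ^ c)) →
    (∀ x : G, x ≠ 1 → ∃ (N : Subgroup G) (_ : N.Normal), N.FiniteIndex ∧ x ∉ N ∧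
      Cls B (G ⧸ N)) → ∃ H : Subgroup G, H.FiniteIndex ∧ Group.IsNilpotent H := by
  obtain ⟨kap, -, hchief⟩ := hch
  have hc0 : (0 : ℝ) < 1 / (32 * (kap + 1)) := by positivity
  refine ⟨1 / (32 * (kap + 1)), hc0, ?_⟩
  intro G _ S hSf hS hgr hres
  obtain ⟨C, hC, hgr⟩ := hgr
  have hkap : (0 : ℝ) ≤ kap := Nat.cast_nonneg kap
  have hc1 : (1 : ℝ) / (32 * (kap + 1)) ≤ 1 / 32 := by
    apply one_div_le_one_div_of_le (by norm_num)
    linarith
  have hc2 : (1 : ℝ) / (32 * (kap + 1)) * kap < 1 := by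
    rw [one_div_mul_eq_div, div_lt_one (by positivity)]
    linarith
  obtain ⟨k0, hk0⟩ := asymP kap _ hc2 (fun r => Nat.card (Bl S r)) C hC hgr
  suffices hb : ∀ (N0 : Subgroup G) (_ : N0.Normal), N0.FiniteIndex → Cls B (G ⧸ N0) →
      ∀ N E : Subgroup (G ⧸ N0), N.Normal → E.Normal → N < E →
        (∀ L : Subgroup (G ⧸ N0), L.Normal → N ≤ L → L ≤ E → L = N ∨ L = E) →
        ¬ ⁅E, E⁆ ≤ N → N.relIndex E ≤ (B + 1) ^ k0 by
    obtain ⟨F, hF, hFs⟩ := core_sol G S hSf hS B hres ((B + 1) ^ k0) hb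
    exact growth_finalP G S hSf hS _ hc0 hc1 C hC hgr F hF hFs
  intro N0 hN0 hfi hcls N E hN hE hNE hmin hab
  have hfin : Finite (G ⧸ N0) := Subgroup.finite_quotient_of_finiteIndex
  have hgen : Subgroup.closure (QuotientGroup.mk' N0 '' S) = ⊤ := by
    rw [← MonoidHom.map_closure, hS, ← MonoidHom.range_eq_map, QuotientGroup.range_mk']
  obtain ⟨k, hk1, hk2, hk3⟩ := hchief (G ⧸ N0) (QuotientGroup.mk' N0 '' S) hcls hgen N E hN hE hNE
    hmin hab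
  have hk4 : k ≤ k0 := by
    refine hk0 k (hk2.trans ?_)
    rw [← image_bl]
    exact Nat.card_image_le (bl_finite hSf _)
  calc N.relIndex E ≤ B ^ k := hk3
    _ ≤ (B + 1) ^ k := Nat.pow_le_pow_left (Nat.le_succ B) k
    _ ≤ (B + 1) ^ k0 := Nat.pow_le_pow_right (Nat.succ_pos B) hk4

end Pool.Agent.Helper41.BCP
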